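import Pool.Agent.V8H41.SN.Time

/-!
# Testing an upper bound on the tensor spectral norm is `∀ℝ`-complete

The definitions are in `Pool/Agent/V8H41/SN/Defs.lean` (spectral norm, the two decision problems),
`Pool/Agent/H78R3/TSV/Defs.lean` (`IsCube`, `entry`), `Pool/Agent/ER/Defs.lean` (the existential
theory of the reals and `∃ℝ`), `Pool/Agent/H612/AR.lean` (`∀ℝ`) and `Pool/Agent/NPC/Defs.lean` (bit
codes, polynomial time).

Sketch of the hardness proof. A system of constraints `x = 1/8`, `x + y = z`, `x y = z` is extended
by a chain of squarings whose last number `y_K = (1/8) ^ (2 ^ K)` is so small that the system is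
satisfiable as soon as all its constraints hold up to the error `|y_K| / 16` at a point of a cube
(gap theorem). The homogenized constraints `g` are quadratic forms. For a large number `C` the
quartic form `C² |x|⁴ - m ∑ g(x)² + (2 x₀ y_K)²` is a sum `∑ A_k(x)²` of squares of explicit
quadratic forms with integer coefficients, and the spectral norm of the tensor
`T(x, y, z) = ∑ z_k A_k(x, y)` is the square root of the maximum of this quartic form on the unit
sphere. So the spectral norm exceeds `C` if and only if `m ∑ g(x)² < (2 x₀ y_K)²` for some `x`; and
then the constraints hold up to the error `|y_K| / 16`, and the constraints of the chain force `y_K`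
to be small.
-/

set_option autoImplicit false

namespace Pool.Agent.Results.MP_50cd9e_lc.SpectralNormComplete

open Pool.Agent.NPC Pool.Agent.NPC.ER Pool.Agent.V8H41.SN

/-- SPECTRAL-NORM-BOUND (is the spectral norm of a given rational `d × d × d` tensor at most a given
positive rational number?) is `∀ℝ`-complete, and SPECTRAL-NORM-EXCEED is `∃ℝ`-complete, under
polynomial-time many-one reductions. -/
theorem result : ARComplete (lang SpectralNormBound) ∧ ERComplete (lang SpectralNormExceed) :=
  ⟨⟨Pool.Agent.NPC.V8H41SN.bound_mem, Pool.Agent.NPC.V8H41SN.bound_hard⟩,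
    ⟨Pool.Agent.NPC.V8H41SN.exceed_mem, Pool.Agent.NPC.V8H41SN.exceed_hard⟩⟩

end Pool.Agent.Results.MP_50cd9e_lc.SpectralNormComplete
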